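import Pool.Agent.Lib.MP_fc2f01_lc.Walks

/-!
# Minimum weight cycles through `k` prescribed vertices

Let all edges have weight at least `m > 0`; call an edge light if its weight is at most `ρ * m`.
The numbers of light edges at the vertices of a minimum weight cycle through `S` have sum at most
`(2 ρ + 1) |S| n`.  Hence such a cycle has few vertices with many light edges, and it is short in
every graph in which the long paths on the other vertices have a light chord.
-/

set_option autoImplicit false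

namespace Pool.Agent.Results.MP_fc2f01_lc.DegreeSum

open Pool.Agent.Lib.MP_fc2f01_lc

/-- if there is a cycle through `S`, there is one of minimum weight -/
theorem exists_shortest {V : Type*} {G : SimpleGraph V} (c : Sym2 V → ℕ) (S : Finset V) (w : ℕ)
    (h : ∃ (u : V) (C : G.Walk u u), IsSCycle S C ∧ weight c C ≤ w) :
    ∃ (u : V) (C : G.Walk u u), IsShortest c S C ∧ weight c C ≤ w := by
  classical
  obtain ⟨u0, C0, h0, hw0⟩ := h
  have hex : ∃ x : ℕ, ∃ (u : V) (C : G.Walk u u), IsSCycle S C ∧ weight c C = x :=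
    ⟨_, u0, C0, h0, rfl⟩
  obtain ⟨u, C, h1, h2⟩ := Nat.find_spec hex
  refine ⟨u, C, ⟨h1, fun u' C' h' => ?_⟩, ?_⟩
  · rw [h2]
    exact Nat.find_min' hex ⟨u', C', h', rfl⟩
  · rw [h2]
    exact (Nat.find_min' hex ⟨u0, C0, h0, rfl⟩).trans hw0

theorem result {V : Type*} [Fintype V] [DecidableEq V] (G : SimpleGraph V) (c : Sym2 V → ℕ)
    (S : Finset V) (hS : S.Nonempty) (m ρ : ℕ) (hm : 0 < m) (hc : ∀ e ∈ G.edgeSet, m ≤ c e) :
    (∀ (u : V) (C : G.Walk u u), IsShortest c S C →
      ∑ v ∈ C.support.toFinset, lightDegree G c (ρ * m) v ≤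
        (2 * ρ + 1) * S.card * Fintype.card V) ∧
    ∀ t p : ℕ, LowPathsChorded G c S (ρ * m) ρ t p →
      (∀ (u : V) (C : G.Walk u u), IsShortest c S C →
        C.length ≤ ((2 * ρ + 1) * t + 1) * S.card * p) ∧
      ∀ w : ℕ, (∃ (u : V) (C : G.Walk u u), IsSCycle S C ∧ weight c C ≤ w) ↔
        ∃ (u : V) (C : G.Walk u u), IsSCycle S C ∧ weight c C ≤ w ∧
          C.length ≤ ((2 * ρ + 1) * t + 1) * S.card * p := by
  obtain ⟨s, hs⟩ := hS
  have key : ∀ t p : ℕ, LowPathsChorded G c S (ρ * m) ρ t p →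
      ∀ (u : V) (C : G.Walk u u), IsShortest c S C →
        C.length ≤ ((2 * ρ + 1) * t + 1) * S.card * p := by
    intro t p hQ u C hC
    obtain ⟨tl, h1, -, h3⟩ := exists_min c S C hC hs
    rw [← h3]
    exact length_le h1 hc hm hs hQ
  refine ⟨fun u C hC => ?_, fun t p hQ => ⟨key t p hQ, fun w => ⟨fun h => ?_, ?_⟩⟩⟩
  · obtain ⟨tl, h1, h2, -⟩ := exists_min c S C hC hs
    rw [← h2]
    exact degree_sum h1 hc hm hs
  · obtain ⟨u, C, hC, hw⟩ := exists_shortest c S w h
    exact ⟨u, C, hC.1, hw, key t p hQ u C hC⟩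
  · rintro ⟨u, C, hC, hw, -⟩
    exact ⟨u, C, hC, hw⟩

end Pool.Agent.Results.MP_fc2f01_lc.DegreeSum
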